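import Pool.Agent.Helper49.KX.St

/-!
# Project KX, module WIA: subspaces
-/

set_option autoImplicit false

noncomputable section

namespace Pool.Agent.Helper76.KX

open Module Pool.Agent.Helper49.KX

theorem exists_sub_finrank {V : Type} [AddCommGroup V] [Module ℂ V] [FiniteDimensional ℂ V]
    (C : Submodule ℂ V) (k : ℕ) (hk : k ≤ finrank ℂ C) :
    ∃ F : Submodule ℂ V, F ≤ C ∧ finrank ℂ F = k := by
  have b := finBasis ℂ C
  have hli : LinearIndependent ℂ (fun i : Fin k => ((b (Fin.castLE hk i) : C) : V)) := by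
    have h1 : LinearIndependent ℂ (fun i : Fin k => b (Fin.castLE hk i)) :=
      b.linearIndependent.comp _ (Fin.castLE_injective hk)
    exact h1.map' C.subtype C.ker_subtype
  refine ⟨Submodule.span ℂ (Set.range (fun i : Fin k => ((b (Fin.castLE hk i) : C) : V))), ?_, ?_⟩
  · rw [Submodule.span_le]
    rintro _ ⟨i, rfl⟩
    exact (b (Fin.castLE hk i)).2
  · rw [finrank_span_eq_card hli, Fintype.card_fin]

theorem rel_compl {V : Type} [AddCommGroup V] [Module ℂ V] {A B : Submodule ℂ V} (h : A ≤ B) :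
    ∃ C : Submodule ℂ V, C ≤ B ∧ A ⊓ C = ⊥ ∧ A ⊔ C = B := by
  obtain ⟨D, hD⟩ := Submodule.exists_isCompl A
  refine ⟨D ⊓ B, inf_le_right, ?_, ?_⟩
  · rw [← inf_assoc, hD.inf_eq_bot, bot_inf_eq]
  · rw [← sup_inf_assoc_of_le D h, hD.sup_eq_top, top_inf_eq]

/-- exchange -/
theorem exch {V : Type} [AddCommGroup V] [Module ℂ V] {A W : Submodule ℂ V} (h : A ⊔ W = ⊤) :
    ∃ P : Submodule ℂ V, P ≤ A ∧ P ⊓ W = ⊥ ∧ P ⊔ W = ⊤ := by
  obtain ⟨P, hP1, hP2, hP3⟩ := rel_compl (inf_le_left : A ⊓ W ≤ A)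
  refine ⟨P, hP1, ?_, ?_⟩
  · have : P ⊓ W ≤ (A ⊓ W) ⊓ P := le_inf (inf_le_inf_right W hP1) inf_le_left
    rw [hP2] at this
    exact le_bot_iff.1 this
  · rw [eq_top_iff, ← h]
    refine sup_le ?_ le_sup_right
    rw [← hP3]
    exact sup_le (inf_le_right.trans le_sup_right) le_sup_left

/-- a subspace of `E` of dimension `k` which meets `K` only in zero -/
theorem pick {V : Type} [AddCommGroup V] [Module ℂ V] [FiniteDimensional ℂ V]
    (E K : Submodule ℂ V) (k : ℕ) (hk : k + finrank ℂ (E ⊓ K : Submodule ℂ V) ≤ finrank ℂ E) :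
    ∃ F : Submodule ℂ V, F ≤ E ∧ finrank ℂ F = k ∧ F ⊓ K = ⊥ := by
  obtain ⟨C, hC1, hC2, hC3⟩ := rel_compl (inf_le_left : E ⊓ K ≤ E)
  have h1 := Submodule.finrank_sup_add_finrank_inf_eq (E ⊓ K) C
  rw [hC2, hC3, finrank_bot] at h1
  obtain ⟨F, hF1, hF2⟩ := exists_sub_finrank C k (by omega)
  refine ⟨F, hF1.trans hC1, hF2, ?_⟩
  have : F ⊓ K ≤ (E ⊓ K) ⊓ C :=
    le_inf (inf_le_inf_right K (hF1.trans hC1)) (inf_le_left.trans hF1)
  rw [hC2] at this
  exact le_bot_iff.1 this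

theorem hWIA : StWia := by
  intro V _ _ _ V1 V2 E m h1 h2
  obtain ⟨Q1, hQ1, hQ2, hQ3⟩ := rel_compl (inf_le_right : V1 ⊓ V2 ≤ V2)
  have hQV : V1 ⊓ Q1 = ⊥ := by
    have : V1 ⊓ Q1 ≤ (V1 ⊓ V2) ⊓ Q1 := le_inf (inf_le_inf_left V1 hQ1) inf_le_right
    rw [hQ2] at this
    exact le_bot_iff.1 this
  have hQS : V1 ⊔ Q1 = V1 ⊔ V2 := by
    refine le_antisymm (sup_le_sup_left hQ1 V1) (sup_le le_sup_left ?_)
    rw [← hQ3]
    exact sup_le (inf_le_left.trans le_sup_left) le_sup_right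
  obtain ⟨R, hR⟩ := Submodule.exists_isCompl (V1 ⊔ Q1)
  have d1 := Submodule.finrank_sup_add_finrank_inf_eq V1 Q1
  rw [hQV, finrank_bot] at d1
  have d2 := Submodule.finrank_sup_add_finrank_inf_eq (V1 ⊔ Q1) R
  rw [hR.inf_eq_bot, hR.sup_eq_top, finrank_bot, finrank_top] at d2
  rw [← hQS] at h1
  -- the two kernels
  have hQR : Q1 ⊓ R = ⊥ := by
    have : Q1 ⊓ R ≤ (V1 ⊔ Q1) ⊓ R := inf_le_inf_right R le_sup_right
    rw [hR.inf_eq_bot] at this
    exact le_bot_iff.1 this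
  have hVR : V1 ⊓ R = ⊥ := by
    have : V1 ⊓ R ≤ (V1 ⊔ Q1) ⊓ R := inf_le_inf_right R le_sup_left
    rw [hR.inf_eq_bot] at this
    exact le_bot_iff.1 this
  have d3 := Submodule.finrank_sup_add_finrank_inf_eq Q1 R
  rw [hQR, finrank_bot] at d3
  have d4 := Submodule.finrank_sup_add_finrank_inf_eq V1 R
  rw [hVR, finrank_bot] at d4
  have htop : (Q1 ⊔ R) ⊔ (V1 ⊔ R) = ⊤ := by
    rw [eq_top_iff, ← hR.sup_eq_top]
    refine sup_le (sup_le (le_sup_left.trans le_sup_right) (le_sup_left.trans le_sup_left))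
      (le_sup_right.trans le_sup_left)
  have d5 := Submodule.finrank_sup_add_finrank_inf_eq (Q1 ⊔ R) (V1 ⊔ R)
  rw [htop, finrank_top] at d5
  have d6 := Submodule.finrank_sup_add_finrank_inf_eq (E ⊓ (Q1 ⊔ R)) (E ⊓ (V1 ⊔ R))
  have d7 : finrank ℂ ((E ⊓ (Q1 ⊔ R)) ⊔ (E ⊓ (V1 ⊔ R)) : Submodule ℂ V) ≤ finrank ℂ E :=
    Submodule.finrank_mono (sup_le inf_le_left inf_le_left)
  have d8 : finrank ℂ ((E ⊓ (Q1 ⊔ R)) ⊓ (E ⊓ (V1 ⊔ R)) : Submodule ℂ V) ≤
      finrank ℂ ((Q1 ⊔ R) ⊓ (V1 ⊔ R) : Submodule ℂ V) :=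
    Submodule.finrank_mono (inf_le_inf inf_le_right inf_le_right)
  by_cases hc : finrank ℂ R + finrank ℂ (E ⊓ (Q1 ⊔ R) : Submodule ℂ V) ≤ finrank ℂ E
  · obtain ⟨F, hF1, hF2, hF3⟩ := pick E (Q1 ⊔ R) _ hc
    have hW : V1 ⊔ (F ⊔ (Q1 ⊔ R)) = ⊤ := by
      rw [eq_top_iff, ← hR.sup_eq_top]
      exact sup_le (sup_le le_sup_left ((le_sup_left.trans le_sup_right).trans le_sup_right))
        ((le_sup_right.trans le_sup_right).trans le_sup_right)
    obtain ⟨P, hP1, hP2, hP3⟩ := exch hW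
    have e1 := Submodule.finrank_sup_add_finrank_inf_eq P (F ⊔ (Q1 ⊔ R))
    rw [hP2, hP3, finrank_bot, finrank_top] at e1
    have e2 := Submodule.finrank_sup_add_finrank_inf_eq F (Q1 ⊔ R)
    rw [hF3, finrank_bot] at e2
    refine ⟨P, Q1, F, R, hP1, hQ1, hF1, hF2, by omega, ?_⟩
    rw [eq_top_iff, ← hP3]
    refine sup_le ((le_sup_left.trans le_sup_left).trans le_sup_left) (sup_le ?_ (sup_le ?_ ?_))
    · exact le_sup_right.trans le_sup_left
    · exact (le_sup_right.trans le_sup_left).trans le_sup_left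
    · exact le_sup_right
  · obtain ⟨F, hF1, hF2, hF3⟩ := pick E (V1 ⊔ R) (finrank ℂ R) (by omega)
    have hW : Q1 ⊔ (F ⊔ (V1 ⊔ R)) = ⊤ := by
      rw [eq_top_iff, ← hR.sup_eq_top]
      exact sup_le (sup_le ((le_sup_left.trans le_sup_right).trans le_sup_right) le_sup_left)
        ((le_sup_right.trans le_sup_right).trans le_sup_right)
    obtain ⟨Q, hP1, hP2, hP3⟩ := exch hW
    have e1 := Submodule.finrank_sup_add_finrank_inf_eq Q (F ⊔ (V1 ⊔ R))
    rw [hP2, hP3, finrank_bot, finrank_top] at e1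
    have e2 := Submodule.finrank_sup_add_finrank_inf_eq F (V1 ⊔ R)
    rw [hF3, finrank_bot] at e2
    refine ⟨V1, Q, F, R, le_rfl, hP1.trans hQ1, hF1, hF2, by omega, ?_⟩
    rw [eq_top_iff, ← hP3]
    refine sup_le ((le_sup_right.trans le_sup_left).trans le_sup_left) (sup_le ?_ (sup_le ?_ ?_))
    · exact le_sup_right.trans le_sup_left
    · exact (le_sup_left.trans le_sup_left).trans le_sup_left
    · exact le_sup_right

end Pool.Agent.Helper76.KX
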